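import Pool.Agent.W2helper22.SM.Stm

set_option autoImplicit false

/-!
# Project SM, pieces CHERN and NOISE
-/

namespace Pool.Agent.W2helper11.SM

open Pool.Agent.W2helper22.SM

theorem chern : P_CHERN := by
  classical
  intro Y _ _ K Bad hp
  set N : ℝ := (Fintype.card Y : ℝ) with hN
  have hNpos : 0 < N := by
    rw [hN]; exact_mod_cast Fintype.card_pos
  set φ : Y → ℝ := fun y => if Bad y then 34 / 25 else 25 / 34 with hφ
  -- the mean of φ
  have hsum : ∑ y, φ y ≤ N * (24 / 25) := by
    have h1 : ∑ y, φ y = (Nat.card {y // Bad y} : ℝ) * (34 / 25) +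
        (N - Nat.card {y // Bad y}) * (25 / 34) := by
      have : ∀ y, φ y = 25 / 34 + (if Bad y then (34 / 25 - 25 / 34 : ℝ) else 0) := by
        intro y; simp only [hφ]; split_ifs <;> ring
      simp only [this]
      rw [Finset.sum_add_distrib, Finset.sum_ite, Finset.sum_const_zero, Finset.sum_const,
        Finset.sum_const, Nat.card_eq_fintype_card, Fintype.card_subtype]
      simp only [nsmul_eq_mul, Finset.card_univ, hN]
      ring
    have h2 : (Nat.card {y // Bad y} : ℝ) ≤ (1 / 3 + 1 / 64) * N := by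
      have := hp
      unfold prob at this
      rw [Nat.card_eq_fintype_card (α := Y)] at this
      rwa [div_le_iff₀ (by simpa [hN] using hNpos)] at this
    rw [h1]
    nlinarith [h2, hNpos]
  have hφ0 : ∀ y, 0 ≤ φ y := by
    intro y; simp only [hφ]; split_ifs <;> norm_num
  have hsum0 : 0 ≤ ∑ y, φ y := Finset.sum_nonneg fun y _ => hφ0 y
  have hind : ∀ g : Fin K → Y, (if K ≤ 2 * Nat.card {j // Bad (g j)} then (1 : ℝ) else 0) ≤
      ∏ j, φ (g j) := by
    intro g
    split_ifs with h
    · have h3 : ∏ j, φ (g j) = (34 / 25 : ℝ) ^ (Nat.card {j // Bad (g j)}) *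
          (25 / 34 : ℝ) ^ (K - Nat.card {j // Bad (g j)}) := by
        simp only [hφ]
        rw [Finset.prod_ite, Finset.prod_const, Finset.prod_const,
          Nat.card_eq_fintype_card, Fintype.card_subtype]
        congr 2
        have := Finset.card_filter_add_card_filter_not (s := (Finset.univ : Finset (Fin K)))
          (fun j => Bad (g j))
        simp only [Finset.card_univ, Fintype.card_fin] at this
        omega
      rw [h3]
      have hle : K - Nat.card {j // Bad (g j)} ≤ Nat.card {j // Bad (g j)} := by omega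
      calc (1 : ℝ) = (34 / 25 : ℝ) ^ (K - Nat.card {j // Bad (g j)}) *
          (25 / 34 : ℝ) ^ (K - Nat.card {j // Bad (g j)}) := by
            rw [← mul_pow]; norm_num
        _ ≤ _ := by
            apply mul_le_mul_of_nonneg_right _ (by positivity)
            exact pow_le_pow_right₀ (by norm_num) hle
    · exact Finset.prod_nonneg fun j _ => hφ0 _
  have hcnt : (Nat.card {g : Fin K → Y // K ≤ 2 * Nat.card {j // Bad (g j)}} : ℝ) ≤
      (∑ y, φ y) ^ K := by
    rw [Fintype.sum_pow, Nat.card_eq_fintype_card, Fintype.card_subtype]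
    calc ((Finset.univ.filter fun g : Fin K → Y => K ≤ 2 * Nat.card {j // Bad (g j)}).card : ℝ)
        = ∑ g : Fin K → Y, (if K ≤ 2 * Nat.card {j // Bad (g j)} then (1 : ℝ) else 0) := by
          rw [Finset.sum_boole]
      _ ≤ _ := Finset.sum_le_sum fun g _ => hind g
  unfold prob
  rw [Nat.card_eq_fintype_card (α := Fin K → Y), Fintype.card_fun, Fintype.card_fin]
  push_cast
  rw [div_le_iff₀ (by positivity)]
  calc _ ≤ (∑ y, φ y) ^ K := hcnt
    _ ≤ (N * (24 / 25)) ^ K := pow_le_pow_left₀ hsum0 hsum K
    _ = (24 / 25 : ℝ) ^ K * (Fintype.card Y : ℝ) ^ K := by rw [mul_pow, mul_comm]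

end Pool.Agent.W2helper11.SM
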